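import Mathlib

/-!
# `T₁` spaces with a positive refinement expansive homeomorphism are finite
-/

open Filter Topology

namespace Pool.Agent.Results.MP_b50e26_gt.FiniteSpace

universe u

/-- `f` is positive refinement expansive: there is a finite open cover `U` such that for every open
cover `V` and every sequence `k` of indices some finite intersection of the sets
`f⁻ʲ (U (k j))`, `j = 0, …, N`, is contained in a member of `V`. -/
def PositiveRefinementExpansive {X : Type u} [TopologicalSpace X] (f : X → X) : Prop :=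
  ∃ (n : ℕ) (U : Fin n → Set X), (∀ i, IsOpen (U i)) ∧ (∀ x, ∃ i, x ∈ U i) ∧
    ∀ V : Set (Set X), (∀ v ∈ V, IsOpen v) → (∀ x, ∃ v ∈ V, x ∈ v) →
      ∀ k : ℕ → Fin n, ∃ N : ℕ, ∃ v ∈ V, {x | ∀ j ≤ N, f^[j] x ∈ U (k j)} ⊆ v

section

variable {X : Type u} {n : ℕ} (f : X → X) (U : Fin n → Set X)

/-- The cell of length `N` of a sequence. -/
def cell (k : ℕ → Fin n) (N : ℕ) : Set X := {x | ∀ j < N, f^[j] x ∈ U (k j)}

theorem cell_anti (k : ℕ → Fin n) {M N : ℕ} (h : M ≤ N) : cell f U k N ⊆ cell f U k M :=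
  fun _ hx j hj => hx j (hj.trans_le h)

theorem cell_congr {k k' : ℕ → Fin n} {N : ℕ} (h : ∀ j < N, k j = k' j) :
    cell f U k N = cell f U k' N := by
  ext x
  constructor
  · intro hx j hj; rw [← h j hj]; exact hx j hj
  · intro hx j hj; rw [h j hj]; exact hx j hj

/-- Uniform version, by compactness of the space of sequences. -/
theorem uniform {V : Set (Set X)}
    (hV : ∀ k : ℕ → Fin n, ∃ N : ℕ, ∃ v ∈ V, cell f U k N ⊆ v) :
    ∃ N : ℕ, ∀ k : ℕ → Fin n, ∃ v ∈ V, cell f U k N ⊆ v := by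
  by_contra hcon
  push Not at hcon
  choose κ hκ using hcon
  obtain ⟨k, φ, hφ, hk⟩ := SeqCompactSpace.tendsto_subseq κ
  obtain ⟨N, v, hv, hN⟩ := hV k
  have h1 : ∀ᶠ m in atTop, ∀ j < N, κ (φ m) j = k j := by
    have h2 : ∀ j : ℕ, ∀ᶠ m in atTop, κ (φ m) j = k j := by
      intro j
      have := (tendsto_pi_nhds.1 hk) j
      rw [nhds_discrete, tendsto_pure] at this
      exact this
    have h3 := (Finset.range N).eventually_all (l := atTop)
      (p := fun j m => κ (φ m) j = k j)
    have h4 := h3.2 (fun j _ => h2 j)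
    filter_upwards [h4] with m hm j hj
    exact hm j (Finset.mem_range.2 hj)
  obtain ⟨m, hm, hmN⟩ := (h1.and (eventually_ge_atTop N)).exists
  apply hκ (φ m) v hv
  refine (cell_anti f U _ (hmN.trans (hφ.id_le m))).trans ?_
  rw [cell_congr f U hm]
  exact hN

end

/-- A `T₁` space admitting a positive refinement expansive homeomorphism is finite. -/
theorem result (X : Type u) [TopologicalSpace X] [T1Space X] (f : X ≃ₜ X)
    (hf : PositiveRefinementExpansive (f : X → X)) : Finite X := by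
  classical
  obtain ⟨n, U, hUo, hUc, hexp⟩ := hf
  have hexp' : ∀ V : Set (Set X), (∀ v ∈ V, IsOpen v) → (∀ x, ∃ v ∈ V, x ∈ v) →
      ∃ N : ℕ, ∀ k : ℕ → Fin n, ∃ v ∈ V, cell f U k N ⊆ v := by
    intro V hV hVc
    apply uniform
    intro k
    obtain ⟨N, v, hv, h⟩ := hexp V hV hVc k
    exact ⟨N + 1, v, hv, fun x hx => h (fun j hj => hx j (Nat.lt_succ_of_le hj))⟩
  -- every point lies in a cell
  have hcov : ∀ x : X, ∃ k : ℕ → Fin n, ∀ N, x ∈ cell f U k N := by
    intro x
    choose k hk using fun j : ℕ => hUc ((f : X → X)^[j] x)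
    exact ⟨k, fun N j _ => hk j⟩
  obtain ⟨N, hN⟩ := hexp' (Set.range fun i => f '' U i) (by
    rintro _ ⟨i, rfl⟩
    exact f.isOpenMap _ (hUo i)) (by
    intro x
    obtain ⟨i, hi⟩ := hUc (f.symm x)
    exact ⟨_, ⟨i, rfl⟩, ⟨_, hi, by simp⟩⟩)
  have hpull : ∀ m : ℕ, ∀ k : ℕ → Fin n, ∃ k' : ℕ → Fin n,
      ∀ x, (f : X → X)^[m] x ∈ cell f U k N → x ∈ cell f U k' (N + m) := by
    intro m
    induction m with
    | zero => exact fun k => ⟨k, fun x hx => by simpa using hx⟩
    | succ m ih =>
      intro k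
      obtain ⟨k', hk'⟩ := ih k
      obtain ⟨_, ⟨i, rfl⟩, hi⟩ := hN k'
      refine ⟨fun j => Nat.casesOn j i k', fun x hx => ?_⟩
      have h1 : f x ∈ cell f U k' (N + m) := by
        apply hk'
        rw [Function.iterate_succ_apply] at hx
        exact hx
      have h2 : f x ∈ f '' U i := hi (cell_anti f U k' (Nat.le_add_right N m) h1)
      have h3 : x ∈ U i := by
        obtain ⟨y, hy, hxy⟩ := h2
        rwa [f.injective hxy] at hy
      intro j hj
      cases j with
      | zero => exact h3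
      | succ j =>
        rw [Function.iterate_succ_apply]
        exact h1 j (by omega)
  by_contra hinf
  rw [not_finite_iff_infinite] at hinf
  obtain ⟨s, hs⟩ := Infinite.exists_subset_card_eq X (n ^ N + 1)
  have hsne : s.Nonempty := by
    rw [← Finset.card_pos, hs]; omega
  obtain ⟨M, hM⟩ := hexp' ((fun p : X => ((s.erase p : Finset X) : Set X)ᶜ) '' s) (by
    rintro _ ⟨p, _, rfl⟩
    exact (Finset.finite_toSet _).isClosed.isOpen_compl) (by
    intro x
    by_cases hx : x ∈ s
    · exact ⟨_, ⟨x, hx, rfl⟩, by simp⟩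
    · obtain ⟨p, hp⟩ := hsne
      refine ⟨_, ⟨p, hp, rfl⟩, ?_⟩
      simp only [Finset.coe_erase, Set.mem_compl_iff, Set.mem_sdiff, Finset.mem_coe,
        Set.mem_singleton_iff, not_and, not_not]
      intro h
      exact absurd h hx)
  choose κ hκ using hcov
  have hinj : Set.InjOn (fun p : X => fun j : Fin N => κ ((f : X → X)^[M] p) j) (s : Set X) := by
    intro p hp q hq hpq
    obtain ⟨k', hk'⟩ := hpull M (κ ((f : X → X)^[M] p))
    have h1 : p ∈ cell f U k' (N + M) := hk' p (hκ _ N)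
    have h2 : q ∈ cell f U k' (N + M) := by
      apply hk' q
      rw [cell_congr f U (k' := κ ((f : X → X)^[M] q))]
      · exact hκ _ N
      · intro j hj
        exact congrFun hpq ⟨j, hj⟩
    obtain ⟨_, ⟨w, hw, rfl⟩, hsub⟩ := hM k'
    have h3 := hsub (cell_anti f U k' (Nat.le_add_left M N) h1)
    have h4 := hsub (cell_anti f U k' (Nat.le_add_left M N) h2)
    have h5 : p = w := by
      by_contra h
      exact h3 (Finset.mem_coe.2 (Finset.mem_erase.2 ⟨h, hp⟩))
    have h6 : q = w := by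
      by_contra h
      exact h4 (Finset.mem_coe.2 (Finset.mem_erase.2 ⟨h, hq⟩))
    rw [h5, h6]
  have hcard := Finset.card_le_card_of_injOn (s := s) (t := (Finset.univ : Finset (Fin N → Fin n)))
    _ (fun _ _ => Finset.mem_univ _) hinj
  rw [hs, Finset.card_univ, Fintype.card_fun, Fintype.card_fin, Fintype.card_fin] at hcard
  omega

end Pool.Agent.Results.MP_b50e26_gt.FiniteSpace
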